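import Pool.Agent.R207.PH9

set_option autoImplicit false

/-! # Volume of the radial solutions of `Δ^m u = - exp u` in `ℝ^(2m)` -/

namespace Pool.Agent.Results.MP_c8f9b2_an.RadialVolume

open MeasureTheory Real Set Filter Topology InnerProductSpace Laplacian
open scoped ContDiff

/-- `U` is the (classical, entire) radial solution of `Δ^m U = - exp U` in `ℝ^(2m)` with data
`Δ^i U (0) = a i`, `0 ≤ i < m`. -/
structure IsRadialSolution (m : ℕ) (a : Fin m → ℝ) (U : EuclideanSpace ℝ (Fin (2 * m)) → ℝ) :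
    Prop where
  smooth : ContDiff ℝ (2 * m : ℕ) U
  radial : ∀ x y, ‖x‖ = ‖y‖ → U x = U y
  eqn : ∀ x, (fun f : EuclideanSpace ℝ (Fin (2 * m)) → ℝ => Δ f)^[m] U x = -Real.exp (U x)
  data : ∀ i : Fin m, (fun f : EuclideanSpace ℝ (Fin (2 * m)) → ℝ => Δ f)^[(i : ℕ)] U 0 = a i

open Pool.Agent.R207.PH

theorem exists_unique (m : ℕ) (hm : 1 ≤ m) (a : Fin m → ℝ) :
    ∃! U, IsRadialSolution m a U := by
  obtain ⟨u, hu⟩ := exists_int (2 * m - 1) hm (rev a)
  obtain ⟨h1, h2, h3⟩ := fromInt hm hu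
  refine ⟨fun x => u ‖x‖, ⟨contDiff_infty.mp h1 (2 * m), fun x y hxy => by simp only [hxy],
    h2, h3⟩, ?_⟩
  intro U hU
  obtain ⟨v, hv, hUv⟩ := toInt hm hU.smooth hU.radial hU.eqn hU.data
  have : v = u := int_unique hm hv hu
  ext x
  rw [hUv, this]

theorem finite_volume (m : ℕ) (hm : 2 ≤ m) (a : Fin m → ℝ) (U : EuclideanSpace ℝ (Fin (2 * m)) → ℝ)
    (hU : IsRadialSolution m a U) : Integrable (fun x => Real.exp (U x)) := by
  obtain ⟨v, hv, hUv⟩ := toInt (by omega) hU.smooth hU.radial hU.eqn hU.data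
  have h0 : (fun x => Real.exp (U x)) = fun x => Real.exp (v ‖x‖) := by
    ext x
    rw [hUv]
  rw [h0, integrable_iff (by omega)]
  exact finite_mass hm (by omega) hv.cont (fun r _ => hv.eq r)

/-- the data on which the volume jumps -/
noncomputable def dat (m : ℕ) (K s : ℝ) : Fin m → ℝ := fun i => bK m K s (m - 1 - i)

theorem rev_dat (m : ℕ) (K s : ℝ) (k : ℕ) (hk : k < m) : rev (dat m K s) k = bK m K s k := by
  unfold rev
  rw [dif_pos hk]
  unfold dat
  congr 1
  simp only
  omega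

theorem lev_congr_data {d : ℕ} {b c : ℕ → ℝ} {F : ℝ → ℝ} (k : ℕ) (h : ∀ i, i < k → b i = c i) :
    lev d b F k = lev d c F k := by
  induction k with
  | zero => rfl
  | succ k ih =>
    ext r
    rw [lev_succ, lev_succ, h k (by omega), ih (fun i hi => h i (by omega))]

theorem discontinuous (m : ℕ) (hm : 3 ≤ m) : ∃ a : Fin m → ℝ, ∀ V : (Fin m → ℝ) → ℝ,
    (∀ a U, IsRadialSolution m a U → V a = ∫ x, Real.exp (U x)) → ¬ ContinuousAt V a := by
  have hm1 : 1 ≤ m := by omega
  obtain ⟨K, s1, hj⟩ := jump (d := 2 * m - 1) hm (by omega)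
  refine ⟨dat m K s1, ?_⟩
  intro V hV hc
  -- volumes
  have hvol : ∀ s, ∃ u, IsInt (2 * m - 1) m (bK m K s) u ∧
      V (dat m K s) = area m * mass (2 * m - 1) u := by
    intro s
    obtain ⟨U, hU, -⟩ := exists_unique m hm1 (dat m K s)
    obtain ⟨v, hv, hUv⟩ := toInt hm1 hU.smooth hU.radial hU.eqn hU.data
    refine ⟨v, ⟨hv.cont, ?_⟩, ?_⟩
    · intro r
      rw [hv.eq r]
      exact congrFun (lev_congr_data m (rev_dat m K s)) r
    · rw [hV _ U hU]
      have h0 : (fun x => Real.exp (U x)) = fun x => Real.exp (v ‖x‖) := by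
        ext x
        rw [hUv]
      rw [h0]
      exact integral_eq hm1 v
  have hA := area_pos hm1
  obtain ⟨v, hv, hVv⟩ := hvol s1
  have hjump : ∀ s, s1 < s → s ≤ s1 + 1 → V (dat m K s1) + area m ≤ V (dat m K s) := by
    intro s hs hs'
    obtain ⟨u, hu, hVu⟩ := hvol s
    have h1 := hj v hv s hs hs' u hu
    rw [hVv, hVu]
    nlinarith
  -- continuity of the data
  have hdat : Continuous (fun s => dat m K s) := by
    apply continuous_pi
    intro i
    unfold dat bK
    split_ifs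
    · exact continuous_id
    · exact continuous_const
    · exact continuous_const
    · exact continuous_const
  have h2 : Tendsto (fun s => V (dat m K s)) (𝓝[>] s1) (𝓝 (V (dat m K s1))) :=
    (hc.tendsto.comp (hdat.tendsto s1)).mono_left nhdsWithin_le_nhds
  have h3 : ∀ᶠ s in 𝓝[>] s1, V (dat m K s) < V (dat m K s1) + area m :=
    h2.eventually_lt_const (by linarith)
  have h4 : ∀ᶠ s in 𝓝[>] s1, s ∈ Ioc s1 (s1 + 1) := Ioc_mem_nhdsGT (by linarith)
  obtain ⟨s, h5, h6⟩ := (h3.and h4).exists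
  have h7 := hjump s h6.1 h6.2
  linarith

/-- For every `m ≥ 3`: the radial solution `U_a` exists and is unique for all data `a`; its volume
is finite for all data `a` (Q1: yes); the volume is not a continuous function of `a` (Q2: no). -/
theorem result : ∀ m : ℕ, 3 ≤ m →
    (∀ a : Fin m → ℝ, ∃! U, IsRadialSolution m a U) ∧
    (∀ a U, IsRadialSolution m a U → Integrable (fun x => Real.exp (U x))) ∧
    ∃ a : Fin m → ℝ, ∀ V : (Fin m → ℝ) → ℝ,
      (∀ a U, IsRadialSolution m a U → V a = ∫ x, Real.exp (U x)) → ¬ ContinuousAt V a :=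
  fun m hm => ⟨exists_unique m (by omega), finite_volume m (by omega), discontinuous m hm⟩

end Pool.Agent.Results.MP_c8f9b2_an.RadialVolume
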